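import Pool.Agent.Helper399_QC.Sum

/-!
# The number of colourings by a finite quandle and finite type invariants

Let `X` be a finite nonempty quandle (connected or not) and let `colourings X K` be the number of
colourings of the knot `K` by `X`. We show that the logarithm of this number is either constant on
all knots or not a Vassiliev invariant. This answers the question affirmatively. More generally, let
`f` be any function of the number of colourings, with values in any abelian group, which takes its
value at `Nat.card X` (the number of colourings of the trivial knot) at no larger number: if
`f (colourings X K)` is a Vassiliev invariant of some type, then every knot has exactly `Nat.card X`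
colourings.

Oriented knots are presented as closed braids (with any number of strands, and with one component)
up to the moves of Markov, and singular knots as closures of singular braids: by the theorems of
Alexander and Markov, and by the theorem of Alexander for singular links (Birman), these are all the
oriented knots up to isotopy and all their singular versions, so that `LinkType` is the usual notion.

A colouring of the diagram given by a braid with `M` strands is determined by the colours of the `M`
strands at the top: these colours are carried through the crossings (`act`), where the strand which
passes over keeps its colour `y`, and the colour `x` of the strand which passes under becomes `y ◃ x`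
at a positive crossing, and the inverse of `y ◃ ·` is applied to it at a negative crossing
(`crossFun`, `crossInv`). The diagram of the closed braid is coloured when the colours at the bottom
are the colours at the top (`Colouring`). The question writes `x * y` for `y ◃ x`.

The proof: for every knot `K` and every `n` there is, by the theorem of Gusarov on the group of knots
modulo `n`-equivalence, a knot `K₁` such that no invariant of type `n` separates the connected sum
`K # K₁` from the trivial knot. A colouring of `K` extends to a colouring of `K # K₁` which is
constant on the second summand. So `K # K₁` has at least as many colourings as `K`. If the function of
the number of colourings is an invariant of type `n`, then `K # K₁` has as many colourings as the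
trivial knot, which has `Nat.card X` of them.
-/

set_option autoImplicit false

namespace Pool.Agent.Results.MP_cc10d1_gt.ColouringCount

open Pool.Agent.Helper399_SL Pool.Agent.Helper399_QC

/-- Let `X` be a finite nonempty quandle.
(1) The logarithm of the number of colourings by `X` is either constant on all knots or it is not a
Vassiliev invariant (of any type `n`).
(2) Let `f` be a function with values in an abelian group such that `f k ≠ f (Nat.card X)` for every
`k > Nat.card X`. If `f` of the number of colourings by `X` is a Vassiliev invariant of some type `n`,
then every knot has exactly `Nat.card X` colourings by `X`. -/
theorem result (X : Type*) [Quandle X] [Finite X] [Nonempty X] :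
    ((∀ K K' : Link 1, Real.log (colourings X K) = Real.log (colourings X K')) ∨
      ∀ n : ℕ, ¬ LinkType n fun K : Link 1 => Real.log (colourings X K)) ∧
    ∀ (A : Type) [AddCommGroup A] (f : ℕ → A),
      (∀ k : ℕ, Nat.card X < k → f k ≠ f (Nat.card X)) →
      ∀ n : ℕ, (LinkType n fun K : Link 1 => f (colourings X K)) →
        ∀ K : Link 1, colourings X K = Nat.card X := by
  have main : ∀ (A : Type) [AddCommGroup A] (f : ℕ → A),
      (∀ k : ℕ, Nat.card X < k → f k ≠ f (Nat.card X)) →
      ∀ n : ℕ, (LinkType n fun K : Link 1 => f (colourings X K)) →
        ∀ K : Link 1, colourings X K = Nat.card X := by
    intro A _ f hf n h K
    obtain ⟨K', hK, hv⟩ := exists_trivial X n K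
    have h1 : f (colourings X K') = f (Nat.card X) := by
      rw [← colourings_one X]
      exact hv A _ h
    have h2 : colourings X K' = Nat.card X := by
      by_contra hne
      exact hf _ (lt_of_le_of_ne (card_le_colourings X K') (Ne.symm hne)) h1
    exact le_antisymm (h2 ▸ hK) (card_le_colourings X K)
  refine ⟨?_, main⟩
  by_cases h : ∃ n : ℕ, LinkType n fun K : Link 1 => Real.log (colourings X K)
  · obtain ⟨n, h⟩ := h
    have hc := main ℝ (fun k => Real.log k) (by
      intro k hk
      have h0 : (0 : ℝ) < Nat.card X := by exact_mod_cast Nat.card_pos
      exact ne_of_gt (Real.log_lt_log h0 (by exact_mod_cast hk))) n h
    left
    intro K K'
    rw [hc K, hc K']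
  · right
    intro n hn
    exact h ⟨n, hn⟩

end Pool.Agent.Results.MP_cc10d1_gt.ColouringCount
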